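import Mathlib

/-!
# The second largest prime factor of an odd perfect number

If `N` is an odd perfect number and `p < q` are primes dividing `N`, then `p ^ 16 ≤ (8 N) ^ 3`.

Write `σ` for the sum of divisors, `y` for the largest and `x` for the second largest prime factor.
A prime power `p ^ a` exactly dividing `N` with `y ∣ σ(p ^ a)` (or `x ∣ σ(p ^ a)`) is a payer.
Key point (`gcd_le`): if `σ(p ^ a) = c r ^ j` with `j = 1, 2`, then with `z = c (p - 1)` the common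
prime power `p ^ v` of `r ^ 2 + r + 1` and `p ^ a` divides `z ^ 2 - z + 1`, and this forces
`p ^ v ≤ 8 c ^ 3` (`lemB`).  So `r ^ 2 + r + 1` must be made of other prime powers of `N`,
which makes `N` large.
-/

namespace Pool.Agent.Results.MP_f02ea4_nt.SecondLargestPrime


open Finset

/-- sum of divisors -/
abbrev sg (n : ℕ) : ℕ := ArithmeticFunction.sigma 1 n

theorem sg_one : sg 1 = 1 := by simp [sg]

theorem sg_mul {m n : ℕ} (h : Nat.Coprime m n) : sg (m * n) = sg m * sg n :=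
  ArithmeticFunction.isMultiplicative_sigma.map_mul_of_coprime h

theorem sg_pow {p : ℕ} (hp : p.Prime) (a : ℕ) : (p - 1) * sg (p ^ a) + 1 = p ^ (a + 1) := by
  rw [sg, ArithmeticFunction.sigma_one_apply_prime_pow hp]
  obtain ⟨u, rfl⟩ : ∃ u, p = u + 1 := ⟨p - 1, by have := hp.pos; omega⟩
  simp only [Nat.add_sub_cancel]
  generalize a + 1 = n
  induction n with
  | zero => simp
  | succ n ih =>
    rw [Finset.sum_range_succ, mul_add, pow_succ, ← ih]
    have := ih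
    nlinarith

theorem le_sg {n : ℕ} (hn : 0 < n) : n ≤ sg n := by
  rw [sg, ArithmeticFunction.sigma_one_apply]
  exact Finset.single_le_sum (f := fun d => d) (fun _ _ => Nat.zero_le _)
    (Nat.mem_divisors_self n hn.ne')

theorem sg_pos {n : ℕ} (hn : 0 < n) : 0 < sg n := lt_of_lt_of_le hn (le_sg hn)

theorem sg_prime {p : ℕ} (hp : p.Prime) : sg (p ^ 1) = p + 1 := by
  rw [sg, ArithmeticFunction.sigma_one_apply_prime_pow hp]
  simp [Finset.sum_range_succ]; ring

theorem sg_prime_sq {p : ℕ} (hp : p.Prime) : sg (p ^ 2) = p ^ 2 + p + 1 := by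
  rw [sg, ArithmeticFunction.sigma_one_apply_prime_pow hp]
  simp [Finset.sum_range_succ]; ring

theorem coprime_sg_pow {p : ℕ} (hp : p.Prime) (a : ℕ) : Nat.Coprime p (sg (p ^ a)) := by
  rw [Nat.Prime.coprime_iff_not_dvd hp]
  intro h
  have h1 := sg_pow hp a
  have h2 : p ∣ (p - 1) * sg (p ^ a) + 1 := by rw [h1]; exact dvd_pow_self p (by omega)
  have h3 : p ∣ 1 := (Nat.dvd_add_right (Dvd.dvd.mul_left h (p - 1))).1 h2
  exact hp.one_lt.ne' (Nat.dvd_one.1 h3)



/-- If `z ^ 2 - z + 1 = p ^ 5` with `z` a positive multiple of `p - 1`, contradiction. -/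
theorem no_fifth {u c : ℤ} (hu : 2 ≤ u) (hc : 1 ≤ c)
    (h : (c * u) ^ 2 - c * u + 1 = (u + 1) ^ 5) : False := by
  have h1 : c * (c * u - 1) = u ^ 4 + 5 * u ^ 3 + 10 * u ^ 2 + 10 * u + 5 := by
    have : u * (c * (c * u - 1)) = u * (u ^ 4 + 5 * u ^ 3 + 10 * u ^ 2 + 10 * u + 5) := by
      linear_combination h
    exact mul_left_cancel₀ (by omega) this
  have h2 : u ∣ c + 5 :=
    ⟨c * c - (u ^ 3 + 5 * u ^ 2 + 10 * u + 10), by linear_combination -h1⟩
  obtain ⟨m, hm⟩ := h2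
  have hcm : c = m * u - 5 := by linarith
  have hm1 : 1 ≤ m := by
    by_contra hcon
    push Not at hcon
    have : m ≤ 0 := by omega
    nlinarith
  subst hcm
  have h3 : u ^ 3 + (5 - m ^ 2) * u ^ 2 + (10 + 10 * m) * u + (m - 15) = 0 := by
    have : u * (u ^ 3 + (5 - m ^ 2) * u ^ 2 + (10 + 10 * m) * u + (m - 15)) = u * 0 := by
      linear_combination -h1
    exact mul_left_cancel₀ (by omega) this
  have h4 : u ∣ m - 15 :=
    ⟨-(u ^ 2 + (5 - m ^ 2) * u + (10 + 10 * m)), by linear_combination h3⟩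
  rcases lt_trichotomy m 15 with hlt | heq | hgt
  · have h5 : u ∣ 15 - m := by
      have := (dvd_neg (a := u) (b := m - 15)).2 h4
      simpa using this
    have h6 : u ≤ 15 - m := Int.le_of_dvd (by omega) h5
    have hu14 : u ≤ 14 := by omega
    have hm14 : m ≤ 14 := by omega
    clear h h1 h4 h5 h6 hm hc
    interval_cases u <;> interval_cases m <;> omega
  · subst heq
    have h5 : u * (u ^ 2 - 220 * u + 160) = u * 0 := by linear_combination h3
    have h6 : u ^ 2 - 220 * u + 160 = 0 := mul_left_cancel₀ (by omega) h5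
    have h7 : u * (220 - u) = 160 := by linear_combination -h6
    have h8 : u < 220 := by
      by_contra hcon
      push Not at hcon
      nlinarith
    nlinarith
  · have h6 : u ≤ m - 15 := Int.le_of_dvd (by omega) h4
    have h7 : u + 15 ≤ m := by omega
    nlinarith [mul_pos (show (0:ℤ) < m by omega) (show (0:ℤ) < u by omega),
      mul_nonneg (mul_nonneg (show (0:ℤ) ≤ m by omega) (show (0:ℤ) ≤ u by omega)) (show (0:ℤ) ≤ u by omega),
      mul_nonneg (mul_nonneg (mul_nonneg (show (0:ℤ) ≤ m by omega) (show (0:ℤ) ≤ u by omega)) (show (0:ℤ) ≤ u by omega)) (show (0:ℤ) ≤ m - u - 15 by omega)]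



/-- The case `v ≥ 2`: `p ≤ 2 c`. -/
theorem two_le {p c : ℤ} (hp3 : 3 ≤ p) (hc : 1 ≤ c)
    (h : p ^ 2 ∣ (c * (p - 1)) ^ 2 - c * (p - 1) + 1) : p ≤ 2 * c := by
  obtain ⟨t, ht⟩ := h
  have h1 : p ∣ c ^ 2 + c + 1 :=
    ⟨p * t - (c ^ 2 * p - 2 * c ^ 2 - c), by linear_combination ht⟩
  obtain ⟨k, hk⟩ := h1
  have hk0 : 0 < k := by
    by_contra hcon
    push Not at hcon
    nlinarith
  have h2 : p ∣ k + c + 2 := by
    have : p * (k + c + 2) = p * (p * (t - c ^ 2 + 2 * k)) := by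
      linear_combination ht + (2 * p - 1) * hk
    exact ⟨_, mul_left_cancel₀ (by omega) this⟩
  have h3 : p ≤ k + c + 2 := Int.le_of_dvd (by omega) h2
  have h4 : p ^ 2 ≤ c ^ 2 + c + 1 + (c + 2) * p := by nlinarith
  rcases le_or_gt 6 c with h6 | h6
  · by_contra hcon
    push Not at hcon
    nlinarith
  · exfalso
    have hc5 : c ≤ 5 := by omega
    have hpl : p ≤ 31 := by
      have : p ≤ c ^ 2 + c + 1 := by rw [hk]; nlinarith
      nlinarith
    clear ht h4
    obtain ⟨w, hw⟩ := h2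
    interval_cases c
    · -- p * k = 3
      interval_cases p <;> omega
    · interval_cases p <;> omega
    · interval_cases p <;> omega
    · interval_cases p <;> omega
    · interval_cases p <;> omega

theorem lemB {p : ℕ} (hp3 : 3 ≤ p) {c v : ℕ} (hc : 1 ≤ c)
    (h : ((p : ℤ)) ^ v ∣ ((c : ℤ) * (p - 1)) ^ 2 - c * (p - 1) + 1) : p ^ v ≤ 8 * c ^ 3 := by
  have hp3z : (3 : ℤ) ≤ p := by exact_mod_cast hp3
  have hcz : (1 : ℤ) ≤ c := by exact_mod_cast hc
  suffices hmain : ((p : ℤ)) ^ v ≤ 8 * (c : ℤ) ^ 3 by exact_mod_cast hmain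
  generalize hP : (p : ℤ) = P at *
  generalize hC : (c : ℤ) = C at *
  clear hP hC
  have hC3 : C ^ 2 ≤ C ^ 3 := pow_le_pow_right₀ hcz (by norm_num)
  have hC2 : C ≤ C ^ 2 := by nlinarith
  match v, h with
  | 0, _ => simp; nlinarith
  | 1, h =>
    rw [pow_one] at h ⊢
    obtain ⟨t, ht⟩ := h
    have h1 : P ∣ C ^ 2 + C + 1 :=
      ⟨t - (C ^ 2 * P - 2 * C ^ 2 - C), by linear_combination ht⟩
    have h2 : P ≤ C ^ 2 + C + 1 := Int.le_of_dvd (by positivity) h1
    nlinarith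
  | 2, h =>
    have h1 := two_le hp3z hcz h
    nlinarith
  | 3, h =>
    have h1 := two_le hp3z hcz (dvd_trans (pow_dvd_pow P (by norm_num)) h)
    calc P ^ 3 ≤ (2 * C) ^ 3 := pow_le_pow_left₀ (by omega) h1 3
      _ = 8 * C ^ 3 := by ring
  | (v + 4), h =>
    set z := C * (P - 1) with hz
    have hz2 : 2 ≤ z := by rw [hz]; nlinarith
    obtain ⟨k, hk⟩ := h
    have hPv : 0 < P ^ (v + 4) := by positivity
    have hk0 : 0 < k := by
      by_contra hcon
      push Not at hcon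
      nlinarith
    -- k ≡ 1 mod (P - 1)
    have hkmod : (P - 1) ∣ k - 1 := by
      have h1 : (P - 1) ∣ P ^ (v + 4) - 1 := by
        simpa using sub_dvd_pow_sub_pow P 1 (v + 4)
      have h2 : (P - 1) ∣ z ^ 2 - z := ⟨C * (z - 1), by rw [hz]; ring⟩
      have h3 : k - 1 = (z ^ 2 - z) - k * (P ^ (v + 4) - 1) := by linear_combination -hk
      rw [h3]
      exact dvd_sub h2 (Dvd.dvd.mul_left h1 k)
    have hkcase : k = 1 ∨ P ≤ k := by
      rcases eq_or_lt_of_le (show 1 ≤ k by omega) with h1 | h1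
      · left; exact h1.symm
      · right
        have := Int.le_of_dvd (by omega) hkmod
        omega
    have hzlt : z < C * P := by rw [hz]; nlinarith
    -- generic consequence of `z ^ 2 ≥ P ^ n`
    have hsq : z ^ 2 < C ^ 2 * P ^ 2 := by
      have : z ^ 2 < (C * P) ^ 2 := pow_lt_pow_left₀ hzlt (by omega) (by norm_num)
      calc z ^ 2 < (C * P) ^ 2 := this
        _ = C ^ 2 * P ^ 2 := by ring
    have hP0 : 0 < P := by omega
    rcases hkcase with hk1 | hkP
    · subst hk1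
      rw [mul_one] at hk
      match v, hk with
      | 0, hk =>
        exfalso
        have h4 : z ^ 2 - z + 1 = (P ^ 2) ^ 2 := by rw [hk]; ring
        rcases lt_or_ge (P ^ 2) z with h5 | h5
        · nlinarith
        · nlinarith
      | 1, hk =>
        exfalso
        exact no_fifth (u := P - 1) (c := C) (by omega) hcz (by rw [← hz]; rw [hk]; ring)
      | (v + 2), hk =>
        have h5 : P ^ (v + 4) * P ^ 2 < C ^ 2 * P ^ 2 := by
          have : P ^ (v + 4) * P ^ 2 = P ^ (v + 2 + 4) := by ring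
          rw [this, ← hk]; nlinarith
        have h6 : P ^ (v + 4) < C ^ 2 := lt_of_mul_lt_mul_right h5 (by positivity)
        have h7 : (P ^ (v + 2 + 4)) ^ 2 < (C ^ 3) ^ 2 := by
          calc (P ^ (v + 2 + 4)) ^ 2 = P ^ (2 * v + 12) := by ring
            _ ≤ P ^ (3 * v + 12) := pow_le_pow_right₀ (by omega) (by omega)
            _ = (P ^ (v + 4)) ^ 3 := by ring
            _ < (C ^ 2) ^ 3 := pow_lt_pow_left₀ h6 (by positivity) (by norm_num)
            _ = (C ^ 3) ^ 2 := by ring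
        have h8 : P ^ (v + 2 + 4) < C ^ 3 := lt_of_pow_lt_pow_left₀ 2 (by positivity) h7
        nlinarith
    · have h5 : P ^ (v + 3) * P ^ 2 < C ^ 2 * P ^ 2 := by
        have h51 : P ^ (v + 4) * P ≤ P ^ (v + 4) * k := by nlinarith
        have h52 : P ^ (v + 3) * P ^ 2 = P ^ (v + 4) * P := by ring
        nlinarith
      have h6 : P ^ (v + 3) < C ^ 2 := lt_of_mul_lt_mul_right h5 (by positivity)
      have h7 : (P ^ (v + 4)) ^ 2 < (C ^ 3) ^ 2 := by
        calc (P ^ (v + 4)) ^ 2 = P ^ (2 * v + 8) := by ring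
          _ ≤ P ^ (3 * v + 9) := pow_le_pow_right₀ (by omega) (by omega)
          _ = (P ^ (v + 3)) ^ 3 := by ring
          _ < (C ^ 2) ^ 3 := pow_lt_pow_left₀ h6 (by positivity) (by norm_num)
          _ = (C ^ 3) ^ 2 := by ring
      have h8 : P ^ (v + 4) < C ^ 3 := lt_of_pow_lt_pow_left₀ 2 (by positivity) h7
      nlinarith

theorem sg_pow_int {p : ℕ} (hp : p.Prime) (a : ℕ) :
    ((p : ℤ) - 1) * (sg (p ^ a) : ℤ) + 1 = (p : ℤ) ^ (a + 1) := by
  have h := sg_pow hp a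
  have h1 : ((p - 1 : ℕ) : ℤ) = (p : ℤ) - 1 := by
    have := hp.pos
    push_cast [Nat.cast_sub (show 1 ≤ p by omega)]
    ring
  rw [← h1]
  exact_mod_cast h

theorem gcd_le {p a r c j : ℕ} (hp : p.Prime) (hp3 : 3 ≤ p) (hc : 1 ≤ c)
    (hj : j = 1 ∨ j = 2) (h : sg (p ^ a) = c * r ^ j) :
    Nat.gcd (r ^ 2 + r + 1) (p ^ a) ≤ 8 * c ^ 3 := by
  obtain ⟨v, hv, hg⟩ := (Nat.dvd_prime_pow hp).1 (Nat.gcd_dvd_right (r ^ 2 + r + 1) (p ^ a))
  rw [hg]
  apply lemB hp3 hc
  have h1 : ((p : ℤ)) ^ v ∣ (r : ℤ) ^ 2 + r + 1 := by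
    have : p ^ v ∣ r ^ 2 + r + 1 := by rw [← hg]; exact Nat.gcd_dvd_left _ _
    exact_mod_cast this
  have h2 : ((p : ℤ)) ^ v ∣ ((c : ℤ) * (p - 1)) * (r : ℤ) ^ j + 1 := by
    have h3 := sg_pow_int hp a
    rw [h] at h3
    push_cast at h3
    have h4 : ((c : ℤ) * (p - 1)) * (r : ℤ) ^ j + 1 = (p : ℤ) ^ (a + 1) := by
      rw [← h3]; ring
    rw [h4]
    exact pow_dvd_pow _ (by omega)
  generalize (c : ℤ) * (p - 1) = z at h2 ⊢
  obtain ⟨s, hs⟩ := h1
  obtain ⟨t, ht⟩ := h2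
  rcases hj with rfl | rfl
  · rw [pow_one] at ht
    refine ⟨z ^ 2 * s - t * (z * r - 1 + z), ?_⟩
    have : z ^ 2 - z + 1 = z ^ 2 * ((r : ℤ) ^ 2 + r + 1) - (z * r + 1) * (z * r - 1 + z) := by
      ring
    rw [this, hs, ht]; ring
  · have h5 : z * (r + 1) - 1 = (p : ℤ) ^ v * (z * s - t) := by
      linear_combination z * hs - ht
    refine ⟨z ^ 2 * s - (z * s - t) * (z * (r + 1) - 1 + 2 - z), ?_⟩
    have h6 : z ^ 2 - z + 1 = z ^ 2 * ((r : ℤ) ^ 2 + r + 1)
        - (z * (r + 1) - 1) * (z * (r + 1) - 1 + 2 - z) := by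
      ring
    rw [h6, hs]
    linear_combination (-(z * (r + 1) - 1 + 2 - z)) * h5

theorem exists_payer {r : ℕ} (hr : r.Prime) (R : ℕ) (hR : 0 < R) (h : r ∣ sg R) :
    ∃ p a M, p.Prime ∧ 0 < a ∧ 0 < M ∧ R = p ^ a * M ∧ Nat.Coprime (p ^ a) M ∧
      r ∣ sg (p ^ a) := by
  induction R using Nat.strong_induction_on with
  | _ R ih =>
    rcases eq_or_ne R 1 with rfl | hR1
    · rw [sg_one] at h
      exact absurd (Nat.dvd_one.1 h) hr.one_lt.ne'
    · set p := R.minFac with hpdef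
      have hp : p.Prime := Nat.minFac_prime hR1
      obtain ⟨a, M, hpM, hRM⟩ := Nat.exists_eq_pow_mul_and_not_dvd hR.ne' p hp.one_lt.ne'
      have ha : 0 < a := by
        rcases Nat.eq_zero_or_pos a with h0 | h0
        · exfalso
          rw [h0, pow_zero, one_mul] at hRM
          exact hpM (hRM ▸ Nat.minFac_dvd R)
        · exact h0
      have hM : 0 < M := by
        rcases Nat.eq_zero_or_pos M with h0 | h0
        · rw [h0] at hpM; exact absurd (dvd_zero p) hpM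
        · exact h0
      have hcop : Nat.Coprime (p ^ a) M :=
        Nat.Coprime.pow_left a ((Nat.Prime.coprime_iff_not_dvd hp).2 hpM)
      rw [hRM, sg_mul hcop] at h
      rcases (Nat.Prime.dvd_mul hr).1 h with h1 | h1
      · exact ⟨p, a, M, hp, ha, hM, hRM, hcop, h1⟩
      · have hlt : M < R := by
          rw [hRM]
          have : 1 < p ^ a := Nat.one_lt_pow ha.ne' hp.one_lt
          nlinarith
        obtain ⟨p', a', M', hp', ha', hM', hMM, hcop', h2⟩ := ih M hlt hM h1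
        refine ⟨p', a', p ^ a * M', hp', ha', Nat.mul_pos (pow_pos hp.pos a) hM', ?_, ?_, h2⟩
        · rw [hRM, hMM]; ring
        · rw [hMM] at hcop
          exact Nat.Coprime.mul_right (Nat.Coprime.coprime_mul_right_right hcop).symm hcop'

/-- Payers of a square. -/
theorem paysq {r R : ℕ} (hr : r.Prime) (hR : 0 < R) (hodd : Odd R)
    (hun : ∀ D E, R = D * E → Nat.Coprime D E → sg D ≤ 2 * D) (h2 : r ^ 2 ∣ sg R) :
    ∃ c M, 1 ≤ c ∧ 1 ≤ M ∧ c * r ^ 2 * M ≤ 2 * R ∧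
      ∀ T L, T ∣ r ^ 2 + r + 1 → T ∣ L * R → 0 < L → T ≤ L * (64 * c ^ 3 * M) := by
  have hodd' : ∀ p a M, p.Prime → 0 < a → R = p ^ a * M → 3 ≤ p := by
    intro p a M hp ha hRM
    have h2' : p ≠ 2 := by
      rintro rfl
      have : 2 ∣ R := by rw [hRM]; exact Dvd.dvd.mul_right (dvd_pow_self 2 ha.ne') M
      rcases hodd with ⟨k, hk⟩
      omega
    have := hp.two_le
    omega
  obtain ⟨p, a, M, hp, ha, hM, hRM, hcop, hpr⟩ :=
    exists_payer hr R hR (dvd_trans (dvd_pow_self r (by norm_num)) h2)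
  have hp3 := hodd' p a M hp ha hRM
  have hpa : 0 < p ^ a := pow_pos hp.pos a
  by_cases hsq : r ^ 2 ∣ sg (p ^ a)
  · obtain ⟨c, hc⟩ := hsq
    have hc0 : 1 ≤ c := by
      rcases Nat.eq_zero_or_pos c with h0 | h0
      · rw [h0, mul_zero] at hc
        have := le_sg hpa
        omega
      · exact h0
    refine ⟨c, M, hc0, hM, ?_, ?_⟩
    · have h3 : sg (p ^ a) ≤ 2 * p ^ a := hun _ _ hRM hcop
      rw [hc] at h3
      calc c * r ^ 2 * M = (r ^ 2 * c) * M := by ring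
        _ ≤ (2 * p ^ a) * M := Nat.mul_le_mul_right M h3
        _ = 2 * R := by rw [hRM]; ring
    · intro T L hT hTL hL
      have hg : Nat.gcd T (p ^ a) ≤ 8 * c ^ 3 := by
        have h4 := gcd_le (r := r) (j := 2) hp hp3 hc0 (Or.inr rfl) (a := a)
          (by rw [hc]; ring)
        refine le_trans (Nat.le_of_dvd ?_ (Nat.gcd_dvd_gcd_of_dvd_left _ hT)) h4
        exact Nat.gcd_pos_of_pos_left _ (by positivity)
      have hT2 : T ∣ (L * M) * Nat.gcd T (p ^ a) := by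
        have h5 : T ∣ (L * M) * (p ^ a) := by
          have : (L * M) * (p ^ a) = L * R := by rw [hRM]; ring
          rw [this]; exact hTL
        have h6 : T ∣ Nat.gcd ((L * M) * T) ((L * M) * p ^ a) :=
          Nat.dvd_gcd (Dvd.intro_left _ rfl) h5
        rwa [Nat.gcd_mul_left] at h6
      have hgpos : 0 < Nat.gcd T (p ^ a) := Nat.gcd_pos_of_pos_right _ hpa
      have h7 := Nat.le_of_dvd (by positivity) hT2
      calc T ≤ (L * M) * Nat.gcd T (p ^ a) := h7
        _ ≤ (L * M) * (8 * c ^ 3) := Nat.mul_le_mul_left _ hg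
        _ ≤ (L * M) * (64 * c ^ 3) := Nat.mul_le_mul_left _ (by nlinarith [pow_pos (show 0 < c by omega) 3])
        _ = L * (64 * c ^ 3 * M) := by ring
  · obtain ⟨c, hc⟩ := hpr
    have hc0 : 1 ≤ c := by
      rcases Nat.eq_zero_or_pos c with h0 | h0
      · rw [h0, mul_zero] at hc
        have := le_sg hpa
        omega
      · exact h0
    have hrc : ¬ r ∣ c := by
      rintro ⟨t, rfl⟩
      exact hsq ⟨t, by rw [hc]; ring⟩
    have hrM : r ∣ sg M := by
      rw [hRM, sg_mul hcop, hc] at h2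
      have h3 : r * r ∣ r * (c * sg M) := by
        have : r * c * sg M = r * (c * sg M) := by ring
        rw [← this, ← pow_two]; exact h2
      have h4 : r ∣ c * sg M := Nat.dvd_of_mul_dvd_mul_left hr.pos h3
      exact ((Nat.Prime.dvd_mul hr).1 h4).resolve_left hrc
    obtain ⟨p', a', M', hp', ha', hM', hMM, hcop', hpr'⟩ := exists_payer hr M hM hrM
    have hp3' := hodd' p' a' (p ^ a * M') hp' ha' (by rw [hRM, hMM]; ring)
    have hpa' : 0 < p' ^ a' := pow_pos hp'.pos a'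
    obtain ⟨c', hc'⟩ := hpr'
    have hc0' : 1 ≤ c' := by
      rcases Nat.eq_zero_or_pos c' with h0 | h0
      · rw [h0, mul_zero] at hc'
        have := le_sg hpa'
        omega
      · exact h0
    have hcc : Nat.Coprime (p ^ a) (p' ^ a') := by
      rw [hMM] at hcop
      exact Nat.Coprime.coprime_mul_right_right hcop
    have hcM : Nat.Coprime (p ^ a) M' := by
      rw [hMM] at hcop
      exact Nat.Coprime.coprime_mul_left_right hcop
    refine ⟨c * c', M', Nat.mul_pos hc0 hc0', hM', ?_, ?_⟩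
    · have h3 : sg (p ^ a * p' ^ a') ≤ 2 * (p ^ a * p' ^ a') := by
        apply hun _ M'
        · rw [hRM, hMM]; ring
        · exact Nat.Coprime.mul_left hcM hcop'
      rw [sg_mul hcc, hc, hc'] at h3
      calc c * c' * r ^ 2 * M' = (r * c * (r * c')) * M' := by ring
        _ ≤ (2 * (p ^ a * p' ^ a')) * M' := Nat.mul_le_mul_right M' h3
        _ = 2 * R := by rw [hRM, hMM]; ring
    · intro T L hT hTL hL
      have hg : Nat.gcd T (p ^ a) ≤ 8 * c ^ 3 := by
        have h4 := gcd_le (r := r) (j := 1) hp hp3 hc0 (Or.inl rfl) (a := a)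
          (by rw [hc]; ring)
        refine le_trans (Nat.le_of_dvd ?_ (Nat.gcd_dvd_gcd_of_dvd_left _ hT)) h4
        exact Nat.gcd_pos_of_pos_left _ (by positivity)
      have hg' : Nat.gcd T (p' ^ a') ≤ 8 * c' ^ 3 := by
        have h4 := gcd_le (r := r) (j := 1) hp' hp3' hc0' (Or.inl rfl) (a := a')
          (by rw [hc']; ring)
        refine le_trans (Nat.le_of_dvd ?_ (Nat.gcd_dvd_gcd_of_dvd_left _ hT)) h4
        exact Nat.gcd_pos_of_pos_left _ (by positivity)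
      have hT2 : T ∣ (L * M') * Nat.gcd T (p ^ a * p' ^ a') := by
        have h5 : T ∣ (L * M') * (p ^ a * p' ^ a') := by
          have : (L * M') * (p ^ a * p' ^ a') = L * R := by rw [hRM, hMM]; ring
          rw [this]; exact hTL
        have h6 : T ∣ Nat.gcd ((L * M') * T) ((L * M') * (p ^ a * p' ^ a')) :=
          Nat.dvd_gcd (Dvd.intro_left _ rfl) h5
        rwa [Nat.gcd_mul_left] at h6
      have hgpos : 0 < Nat.gcd T (p ^ a * p' ^ a') :=
        Nat.gcd_pos_of_pos_right _ (by positivity)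
      have h7 := Nat.le_of_dvd (by positivity) hT2
      have h8 : Nat.gcd T (p ^ a * p' ^ a') ≤ Nat.gcd T (p ^ a) * Nat.gcd T (p' ^ a') :=
        Nat.le_of_dvd (Nat.mul_pos (Nat.gcd_pos_of_pos_right _ hpa)
          (Nat.gcd_pos_of_pos_right _ hpa')) (Nat.gcd_mul_right_dvd_mul_gcd T _ _)
      calc T ≤ (L * M') * Nat.gcd T (p ^ a * p' ^ a') := h7
        _ ≤ (L * M') * (Nat.gcd T (p ^ a) * Nat.gcd T (p' ^ a')) := Nat.mul_le_mul_left _ h8
        _ ≤ (L * M') * ((8 * c ^ 3) * (8 * c' ^ 3)) :=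
            Nat.mul_le_mul_left _ (Nat.mul_le_mul hg hg')
        _ = L * (64 * (c * c') ^ 3 * M') := by ring



/-- If `x < y` and `c * y = x ^ 2 + x + 1` then `c + 1 ≤ x`. -/
theorem cof_lt {x y c : ℕ} (hx : 2 ≤ x) (hxy : x < y) (h : c * y = x ^ 2 + x + 1) :
    c + 1 ≤ x := by
  have h1 : c * (x + 1) ≤ x ^ 2 + x + 1 := by rw [← h]; exact Nat.mul_le_mul_left c hxy
  have h2 : c ≤ x := by
    by_contra hcon
    push Not at hcon
    nlinarith
  rcases Nat.lt_or_ge c x with h3 | h3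
  · exact h3
  · exfalso
    have h4 : c = x := le_antisymm h2 h3
    subst h4
    have h5 : c ∣ 1 := by
      have h6 : c ∣ (c ^ 2 + c) + 1 := ⟨y, by rw [← h]⟩
      exact (Nat.dvd_add_right (by exact ⟨c + 1, by ring⟩)).1 h6
    have := Nat.dvd_one.1 h5
    omega

/-- `y ∣ x ^ 2 + x + 1` and `x ^ 2 ∣ y ^ 2 + y + 1` is impossible for `2 ≤ x < y`. -/
theorem no_mutual {x y : ℕ} (hx : 2 ≤ x) (hxy : x < y) (h1 : y ∣ x ^ 2 + x + 1)
    (h2 : x ^ 2 ∣ y ^ 2 + y + 1) : False := by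
  obtain ⟨c, hc⟩ := h1
  rw [mul_comm] at hc
  have hcx : c + 1 ≤ x := cof_lt hx hxy hc.symm
  have hc1 : 1 ≤ c := by
    rcases Nat.eq_zero_or_pos c with h0 | h0
    · rw [h0, zero_mul] at hc; omega
    · exact h0
  obtain ⟨d, hd⟩ := h2
  -- move to the integers
  have hcz : (c : ℤ) * y = (x : ℤ) ^ 2 + x + 1 := by exact_mod_cast hc.symm
  have hdz : (y : ℤ) ^ 2 + y + 1 = (x : ℤ) ^ 2 * d := by exact_mod_cast hd
  have hxz : (2 : ℤ) ≤ x := by exact_mod_cast hx
  have hcxz : (c : ℤ) + 1 ≤ x := by exact_mod_cast hcx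
  have hc1z : (1 : ℤ) ≤ c := by exact_mod_cast hc1
  have hyz : (x : ℤ) < y := by exact_mod_cast hxy
  generalize (x : ℤ) = X at *
  generalize (y : ℤ) = Y at *
  generalize (c : ℤ) = C at *
  generalize (d : ℤ) = D at *
  -- X ^ 2 ∣ (C + 2) X + (C ^ 2 + C + 1)
  have e1 : (C + 2) * X + (C ^ 2 + C + 1) = X ^ 2 * (C ^ 2 * D - (X ^ 2 + 2 * X + 2 + C) - 1) := by
    have : C ^ 2 * (Y ^ 2 + Y + 1) = (C * Y) ^ 2 + C * (C * Y) + C ^ 2 := by ring
    rw [hcz, hdz] at this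
    linear_combination -this
  have hk : X ∣ C ^ 2 + C + 1 :=
    ⟨X * (C ^ 2 * D - (X ^ 2 + 2 * X + 2 + C) - 1) - (C + 2), by linear_combination e1⟩
  obtain ⟨k, hk⟩ := hk
  have hX0 : X ≠ 0 := by omega
  have hj : X ∣ C + 2 + k :=
    ⟨C ^ 2 * D - (X ^ 2 + 2 * X + 2 + C) - 1 + 0, mul_left_cancel₀ hX0 (by linear_combination e1 - hk)⟩
  obtain ⟨j, hj⟩ := hj
  have hk0 : 0 < k := by
    by_contra hcon
    push Not at hcon
    nlinarith
  have hkX : k < X := by
    by_contra hcon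
    push Not at hcon
    nlinarith
  have hj1 : 1 ≤ j := by
    by_contra hcon
    push Not at hcon
    nlinarith
  have hj2 : j ≤ 2 := by
    by_contra hcon
    push Not at hcon
    nlinarith
  rcases (show j = 1 ∨ j = 2 by omega) with rfl | rfl
  · -- k = X - C - 2
    have hk2 : k = X - C - 2 := by linarith
    subst hk2
    -- C ∣ 3 X + 2
    have h3 : C ∣ 3 * X + 2 := ⟨Y - X - C - 1, by linear_combination hk - hcz⟩
    obtain ⟨m, hm⟩ := h3
    have h7 : C ∣ 7 := by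
      refine ⟨-(m * (C * m - 4) - 3 * (C * m - 2) - 6 * m - 9 * C - 9), ?_⟩
      have h3X : 3 * X = C * m - 2 := by linarith
      have : (3 * X) ^ 2 - 3 * (C + 2) * (3 * X) - 9 * (C ^ 2 + C + 1) = 0 := by
        linear_combination (-9) * hk
      rw [h3X] at this
      linear_combination this
    have hC7 : C ≤ 7 := Int.le_of_dvd (by norm_num) h7
    have hX24 : X ≤ 30 := by
      by_contra hcon
      push Not at hcon
      nlinarith
    interval_cases C <;> first | omega | (interval_cases X <;> omega)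
  · have : k = X - 1 ∧ C = X - 1 := by constructor <;> linarith
    obtain ⟨rfl, rfl⟩ := this
    nlinarith

/-- `x ∣ y + 1`, `y ∣ x ^ 2 + x + 1` is impossible for odd `x`, `3 ≤ x < y`. -/
theorem no_mutual' {x y : ℕ} (hx : 3 ≤ x) (hxo : x ≠ 4) (hxy : x < y) (h1 : y ∣ x ^ 2 + x + 1)
    (h2 : x ∣ y + 1) : False := by
  obtain ⟨c, hc⟩ := h1
  rw [mul_comm] at hc
  have hcx : c + 1 ≤ x := cof_lt (by omega) hxy hc.symm
  have h3 : x ∣ c + 1 := by
    have h4 : x ∣ c * (y + 1) := Dvd.dvd.mul_left h2 c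
    have h5 : c * (y + 1) = x * (x + 1) + (c + 1) := by
      rw [mul_add, ← hc]; ring
    rw [h5] at h4
    exact (Nat.dvd_add_right (Dvd.intro _ rfl)).1 h4
  have h4 : x ≤ c + 1 := Nat.le_of_dvd (by omega) h3
  obtain ⟨u, rfl⟩ : ∃ u, x = u + 1 := ⟨x - 1, by omega⟩
  have h5 : c = u := by omega
  subst h5
  have h6 : c ∣ 3 := by
    have h7 : c ∣ c * (c + 3) + 3 := ⟨y, by rw [← hc]; ring⟩
    exact (Nat.dvd_add_right (Dvd.intro _ rfl)).1 h7
  have h8 := Nat.le_of_dvd (by norm_num) h6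
  interval_cases c <;> omega

theorem gcd_le_B {p a x y c k : ℕ} (hp : p.Prime) (hp3 : 3 ≤ p) (hc : 1 ≤ c) (hk : 1 ≤ k)
    (hy : y + 1 = 2 * k * x) (h : sg (p ^ a) = x * y * c) :
    Nat.gcd (x ^ 2 + x + 1) (p ^ a) ≤ 7 * k ^ 2 * c ^ 2 * p ^ 2 := by
  obtain ⟨v, hv, hg⟩ := (Nat.dvd_prime_pow hp).1 (Nat.gcd_dvd_right (x ^ 2 + x + 1) (p ^ a))
  rw [hg]
  have h1 : ((p : ℤ)) ^ v ∣ (x : ℤ) ^ 2 + x + 1 := by
    have : p ^ v ∣ x ^ 2 + x + 1 := by rw [← hg]; exact Nat.gcd_dvd_left _ _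
    exact_mod_cast this
  have hyz : (y : ℤ) = 2 * k * x - 1 := by
    have : ((y + 1 : ℕ) : ℤ) = ((2 * k * x : ℕ) : ℤ) := by rw [hy]
    push_cast at this
    linarith
  have h2 : ((p : ℤ)) ^ v ∣ ((c : ℤ) * (p - 1)) * x * (2 * k * x - 1) + 1 := by
    have h3 := sg_pow_int hp a
    rw [h] at h3
    push_cast at h3
    have h4 : ((c : ℤ) * (p - 1)) * x * (2 * k * x - 1) + 1 = (p : ℤ) ^ (a + 1) := by
      rw [← h3, hyz]; ring
    rw [h4]
    exact pow_dvd_pow _ (by omega)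
  have hp3z : (3 : ℤ) ≤ p := by exact_mod_cast hp3
  have hcz : (1 : ℤ) ≤ c := by exact_mod_cast hc
  have hkz : (1 : ℤ) ≤ k := by exact_mod_cast hk
  have hz1 : 1 ≤ (c : ℤ) * (p - 1) := by nlinarith
  have hzlt : (c : ℤ) * (p - 1) ≤ c * p := by nlinarith
  suffices hmain : ((p : ℤ)) ^ v ≤ 7 * (k : ℤ) ^ 2 * (c : ℤ) ^ 2 * (p : ℤ) ^ 2 by
    exact_mod_cast hmain
  generalize (c : ℤ) * (p - 1) = z at h2 hz1 hzlt
  obtain ⟨s, hs⟩ := h1
  obtain ⟨t, ht⟩ := h2
  have hw : (2 * k + 1) * z * x + 2 * k * z - 1 = (p : ℤ) ^ v * (2 * k * z * s - t) := by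
    linear_combination 2 * k * z * hs - ht
  have hG : ((p : ℤ)) ^ v ∣ (4 * k ^ 2 + 2 * k + 1) * z ^ 2 - (2 * k - 1) * z + 1 := by
    refine ⟨((2 * k + 1) * z) ^ 2 * s - (2 * k * z * s - t) *
      (((2 * k + 1) * z * x + 2 * k * z - 1) + 2 * (1 - 2 * k * z) + (2 * k + 1) * z), ?_⟩
    linear_combination ((2 * k + 1) * z) ^ 2 * hs -
      (((2 * k + 1) * z * x + 2 * k * z - 1) + 2 * (1 - 2 * k * z) + (2 * k + 1) * z) * hw
  have hle := Int.le_of_dvd (by nlinarith [mul_nonneg (show (0:ℤ) ≤ k by omega) (show (0:ℤ) ≤ z by omega), sq_nonneg ((k:ℤ) * z)]) hG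
  have h5 : (4 * k ^ 2 + 2 * k + 1) * z ^ 2 - (2 * k - 1) * z + 1 ≤ 7 * (k : ℤ) ^ 2 * z ^ 2 := by
    have h6 : (4 * (k : ℤ) ^ 2 + 2 * k + 1) ≤ 7 * (k : ℤ) ^ 2 := by nlinarith
    have h7 : 1 ≤ (2 * (k : ℤ) - 1) * z := by nlinarith
    nlinarith [mul_le_mul_of_nonneg_right h6 (sq_nonneg z)]
  have h8 : z ^ 2 ≤ (c * p) ^ 2 := pow_le_pow_left₀ (by omega) hzlt 2
  calc ((p : ℤ)) ^ v ≤ (4 * k ^ 2 + 2 * k + 1) * z ^ 2 - (2 * k - 1) * z + 1 := hle
    _ ≤ 7 * (k : ℤ) ^ 2 * z ^ 2 := h5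
    _ ≤ 7 * (k : ℤ) ^ 2 * (c * p) ^ 2 := by
        apply mul_le_mul_of_nonneg_left h8; positivity
    _ = 7 * (k : ℤ) ^ 2 * (c : ℤ) ^ 2 * (p : ℤ) ^ 2 := by ring

/-! ### the final inequalities -/

theorem arithC {x y c M N : ℕ} (hxy : x ≤ y) (hM : 1 ≤ M) (h1 : x * y ^ 4 * c * M ≤ 2 * N)
    (h2 : y ^ 2 ≤ x * (64 * c ^ 3 * M)) : x ^ 16 ≤ (8 * N) ^ 3 := by
  calc x ^ 16 = x ^ 2 * x ^ 14 := by ring
    _ ≤ x ^ 2 * y ^ 14 := Nat.mul_le_mul_left _ (Nat.pow_le_pow_left hxy 14)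
    _ = y ^ 2 * (x ^ 2 * y ^ 12 * 1 ^ 2) := by ring
    _ ≤ (x * (64 * c ^ 3 * M)) * (x ^ 2 * y ^ 12 * M ^ 2) :=
        Nat.mul_le_mul h2 (Nat.mul_le_mul_left _ (Nat.pow_le_pow_left hM 2))
    _ = 64 * (x * y ^ 4 * c * M) ^ 3 := by ring
    _ ≤ 64 * (2 * N) ^ 3 := Nat.mul_le_mul_left _ (Nat.pow_le_pow_left h1 3)
    _ = (8 * N) ^ 3 := by ring

theorem arithB1 {x y c c' M N : ℕ} (hxy : x ≤ y) (hM : 1 ≤ M)
    (h1 : y * x ^ 4 * c' * M ≤ 2 * N) (h2 : c ≤ 1 * (64 * c' ^ 3 * M))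
    (h3 : x ^ 2 ≤ c * y) : x ^ 16 ≤ (8 * N) ^ 3 := by
  calc x ^ 16 = x ^ 2 * (x ^ 2 * x ^ 12) := by ring
    _ ≤ y ^ 2 * ((c * y) * x ^ 12) :=
        Nat.mul_le_mul (Nat.pow_le_pow_left hxy 2) (Nat.mul_le_mul_right _ h3)
    _ = c * (y ^ 3 * x ^ 12 * 1 ^ 2) := by ring
    _ ≤ (1 * (64 * c' ^ 3 * M)) * (y ^ 3 * x ^ 12 * M ^ 2) :=
        Nat.mul_le_mul h2 (Nat.mul_le_mul_left _ (Nat.pow_le_pow_left hM 2))
    _ = 64 * (y * x ^ 4 * c' * M) ^ 3 := by ring
    _ ≤ 64 * (2 * N) ^ 3 := Nat.mul_le_mul_left _ (Nat.pow_le_pow_left h1 3)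
    _ = (8 * N) ^ 3 := by ring

theorem arithB2b {x y c c' M N : ℕ} (hxy : x ≤ y) (hM : 1 ≤ M) (hc : 1 ≤ c)
    (h1 : c * c' * x ^ 3 * y ^ 2 * M ≤ 2 * N) (h2 : x ^ 2 ≤ (c * y) * (8 * c' ^ 3) * M) :
    x ^ 16 ≤ (8 * N) ^ 3 := by
  calc x ^ 16 = x ^ 2 * (x ^ 9 * x ^ 5 * 1 ^ 2 * 1 ^ 2) := by ring
    _ ≤ ((c * y) * (8 * c' ^ 3) * M) * (x ^ 9 * y ^ 5 * M ^ 2 * c ^ 2) := by
        apply Nat.mul_le_mul h2
        apply Nat.mul_le_mul _ (Nat.pow_le_pow_left hc 2)
        apply Nat.mul_le_mul _ (Nat.pow_le_pow_left hM 2)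
        exact Nat.mul_le_mul_left _ (Nat.pow_le_pow_left hxy 5)
    _ = 8 * (c * c' * x ^ 3 * y ^ 2 * M) ^ 3 := by ring
    _ ≤ 8 * (2 * N) ^ 3 := Nat.mul_le_mul_left _ (Nat.pow_le_pow_left h1 3)
    _ ≤ 64 * (2 * N) ^ 3 := Nat.mul_le_mul_right _ (by norm_num)
    _ = (8 * N) ^ 3 := by ring

theorem arithB2a {x y c p k M N : ℕ} (hx : 1 ≤ x) (hxy : x ≤ y) (hM : 1 ≤ M) (hc : 1 ≤ c)
    (h1 : c * x ^ 3 * y ^ 2 * M ≤ 2 * N) (h2 : x ^ 2 ≤ 7 * k ^ 2 * c ^ 2 * p ^ 2 * M)
    (h3 : p ^ 4 ≤ x * y * c) (h4 : k * x ≤ y) : x ^ 16 ≤ (8 * N) ^ 3 := by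
  have h5 : x * x ^ 3 ≤ x * (49 * k ^ 4 * c ^ 5 * y * M ^ 2) := by
    calc x * x ^ 3 = (x ^ 2) ^ 2 := by ring
      _ ≤ (7 * k ^ 2 * c ^ 2 * p ^ 2 * M) ^ 2 := Nat.pow_le_pow_left h2 2
      _ = 49 * k ^ 4 * c ^ 4 * M ^ 2 * p ^ 4 := by ring
      _ ≤ 49 * k ^ 4 * c ^ 4 * M ^ 2 * (x * y * c) := Nat.mul_le_mul_left _ h3
      _ = x * (49 * k ^ 4 * c ^ 5 * y * M ^ 2) := by ring
  have h6 : x ^ 3 ≤ 49 * k ^ 4 * c ^ 5 * y * M ^ 2 := Nat.le_of_mul_le_mul_left h5 hx
  have h7 : x ^ 7 ≤ 49 * c ^ 5 * y ^ 5 * M ^ 2 := by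
    calc x ^ 7 = x ^ 3 * x ^ 4 := by ring
      _ ≤ (49 * k ^ 4 * c ^ 5 * y * M ^ 2) * x ^ 4 := Nat.mul_le_mul_right _ h6
      _ = (k * x) ^ 4 * (49 * c ^ 5 * y * M ^ 2) := by ring
      _ ≤ y ^ 4 * (49 * c ^ 5 * y * M ^ 2) := Nat.mul_le_mul_right _ (Nat.pow_le_pow_left h4 4)
      _ = 49 * c ^ 5 * y ^ 5 * M ^ 2 := by ring
  have h8 : (x ^ 16) ^ 2 ≤ (7 * (2 * N) ^ 3) ^ 2 := by
    calc (x ^ 16) ^ 2 = x ^ 7 * (x ^ 18 * x ^ 7 * 1 ^ 4 * 1) := by ring
      _ ≤ (49 * c ^ 5 * y ^ 5 * M ^ 2) * (x ^ 18 * y ^ 7 * M ^ 4 * c) := by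
          apply Nat.mul_le_mul h7
          apply Nat.mul_le_mul _ hc
          apply Nat.mul_le_mul _ (Nat.pow_le_pow_left hM 4)
          exact Nat.mul_le_mul_left _ (Nat.pow_le_pow_left hxy 7)
      _ = 49 * (c * x ^ 3 * y ^ 2 * M) ^ 6 := by ring
      _ ≤ 49 * (2 * N) ^ 6 := Nat.mul_le_mul_left _ (Nat.pow_le_pow_left h1 6)
      _ = (7 * (2 * N) ^ 3) ^ 2 := by ring
  have h9 : x ^ 16 ≤ 7 * (2 * N) ^ 3 := (Nat.pow_le_pow_iff_left (by norm_num)).1 h8
  calc x ^ 16 ≤ 7 * (2 * N) ^ 3 := h9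
    _ ≤ 64 * (2 * N) ^ 3 := Nat.mul_le_mul_right _ (by norm_num)
    _ = (8 * N) ^ 3 := by ring

theorem arith6 {x N : ℕ} (hx : 1 ≤ x) (h : x ^ 6 ≤ 2 * N) : x ^ 16 ≤ (8 * N) ^ 3 := by
  calc x ^ 16 ≤ x ^ 18 := Nat.pow_le_pow_right hx (by norm_num)
    _ = (x ^ 6) ^ 3 := by ring
    _ ≤ (2 * N) ^ 3 := Nat.pow_le_pow_left h 3
    _ ≤ (8 * N) ^ 3 := Nat.pow_le_pow_left (by omega) 3


/-! ### The cases -/

/-- Hypothesis bundle: every unitary divisor `D` of `N` satisfies `σ(D) ≤ 2 D`. -/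
def Unit2 (N : ℕ) : Prop := ∀ D E, N = D * E → Nat.Coprime D E → sg D ≤ 2 * D

theorem Unit2.of_perfect {N : ℕ} (hN : 0 < N) (hs : sg N = 2 * N) : Unit2 N := by
  intro D E hDE hcop
  have hE : 0 < E := by
    rcases Nat.eq_zero_or_pos E with h | h
    · rw [h, mul_zero] at hDE; omega
    · exact h
  have h1 : sg D * sg E = 2 * (D * E) := by rw [← sg_mul hcop, ← hDE, hs]
  have h2 : sg D * E ≤ (2 * D) * E := by
    calc sg D * E ≤ sg D * sg E := Nat.mul_le_mul_left _ (le_sg hE)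
      _ = 2 * (D * E) := h1
      _ = (2 * D) * E := by ring
  exact Nat.le_of_mul_le_mul_right h2 hE

theorem Unit2.right {A B : ℕ} (h : Unit2 (A * B)) (hcop : Nat.Coprime A B) : Unit2 B := by
  intro D E hDE hDEc
  apply h D (A * E)
  · rw [hDE]; ring
  · rw [hDE] at hcop
    exact Nat.Coprime.mul_right (Nat.Coprime.coprime_mul_right_right hcop).symm hDEc

theorem Unit2.self {R : ℕ} (h : Unit2 R) : sg R ≤ 2 * R :=
  h R 1 (by ring) (Nat.coprime_one_right R)

theorem odd_sq_add (n : ℕ) : Nat.Coprime (n ^ 2 + n + 1) 2 := by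
  rw [Nat.coprime_comm, Nat.Prime.coprime_iff_not_dvd Nat.prime_two]
  intro h
  have h1 : 2 ∣ n * (n + 1) := (Nat.even_mul_succ_self n).two_dvd
  have h2 : n ^ 2 + n + 1 = n * (n + 1) + 1 := by ring
  rw [h2] at h
  have := (Nat.dvd_add_right h1).1 h
  omega

theorem coprime_sq_add (n : ℕ) : Nat.Coprime (n ^ 2 + n + 1) n := by
  have : n ^ 2 + n + 1 = 1 + (n + 1) * n := by ring
  rw [this, Nat.coprime_add_mul_right_left]
  exact Nat.coprime_one_left n

theorem caseC {x y R : ℕ} (hx : x.Prime) (hy : y.Prime) (hxy : x + 2 ≤ y)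
    (hR : 0 < R) (hRo : Odd R) (hu : Unit2 R)
    (hs : (y ^ 2 + y + 1) * ((x + 1) * sg R) = 2 * (y ^ 2 * (x * R))) :
    x ^ 16 ≤ (8 * (y ^ 2 * (x * R))) ^ 3 := by
  have h1 : y ^ 2 ∣ sg R := by
    have h2 : y ^ 2 ∣ (y ^ 2 + y + 1) * ((x + 1) * sg R) := by
      rw [hs]; exact ⟨2 * (x * R), by ring⟩
    have h3 : Nat.Coprime (y ^ 2) (y ^ 2 + y + 1) := (coprime_sq_add y).symm.pow_left 2
    have h4 := h3.dvd_of_dvd_mul_left h2
    have h5 : Nat.Coprime (y ^ 2) (x + 1) := by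
      apply Nat.Coprime.pow_left
      rw [Nat.Prime.coprime_iff_not_dvd hy]
      intro h
      have := Nat.le_of_dvd (by omega) h
      omega
    exact h5.dvd_of_dvd_mul_left h4
  obtain ⟨c, M, hc, hM, hcM, hT⟩ := paysq hy hR hRo hu h1
  have h2 : y ^ 2 + y + 1 ∣ x * R := by
    have h3 : y ^ 2 + y + 1 ∣ 2 * (y ^ 2 * (x * R)) := by rw [← hs]; exact Dvd.intro _ rfl
    have h4 := (odd_sq_add y).dvd_of_dvd_mul_left h3
    exact ((coprime_sq_add y).pow_right 2).dvd_of_dvd_mul_left h4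
  have h3 := hT (y ^ 2 + y + 1) x dvd_rfl h2 hx.pos
  apply arithC (show x ≤ y by omega) hM (c := c)
  · calc x * y ^ 4 * c * M = (x * y ^ 2) * (c * y ^ 2 * M) := by ring
      _ ≤ (x * y ^ 2) * (2 * R) := Nat.mul_le_mul_left _ hcM
      _ = 2 * (y ^ 2 * (x * R)) := by ring
  · calc y ^ 2 ≤ y ^ 2 + y + 1 := by omega
      _ ≤ x * (64 * c ^ 3 * M) := h3

theorem caseB {x y R : ℕ} (hx : x.Prime) (hy : y.Prime) (hx3 : 3 ≤ x) (hxy : x + 2 ≤ y)
    (hR : 0 < R) (hRo : Odd R) (hu : Unit2 R) (hxR : ¬ x ∣ R)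
    (hmax : ∀ p, p.Prime → p ∣ R → p ≤ x)
    (hNo : Odd (y * (x ^ 2 * R)))
    (hs : (y + 1) * ((x ^ 2 + x + 1) * sg R) = 2 * (y * (x ^ 2 * R))) :
    x ^ 16 ≤ (8 * (y * (x ^ 2 * R))) ^ 3 := by
  have hyo : Odd y := (Nat.odd_mul.1 hNo).1
  have hxo : Odd x := by
    have := (Nat.odd_mul.1 (Nat.odd_mul.1 hNo).2).1
    rwa [Nat.odd_pow_iff (by norm_num)] at this
  have hsqx : Nat.Coprime (x ^ 2) (x ^ 2 + x + 1) := (coprime_sq_add x).symm.pow_left 2
  -- x ^ 2 ∣ (y + 1) * sg R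
  have hx2 : x ^ 2 ∣ (y + 1) * sg R := by
    have h2 : x ^ 2 ∣ (x ^ 2 + x + 1) * ((y + 1) * sg R) := by
      refine ⟨2 * (y * R), ?_⟩
      calc (x ^ 2 + x + 1) * ((y + 1) * sg R) = (y + 1) * ((x ^ 2 + x + 1) * sg R) := by ring
        _ = x ^ 2 * (2 * (y * R)) := by rw [hs]; ring
    exact hsqx.dvd_of_dvd_mul_left h2
  have hyc : Nat.Coprime y (y + 1) := by
    rw [Nat.coprime_self_add_right]; exact Nat.coprime_one_right y
  have hy1 : y ∣ (x ^ 2 + x + 1) * sg R := by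
    have h2 : y ∣ (y + 1) * ((x ^ 2 + x + 1) * sg R) := by
      rw [hs]; exact ⟨2 * (x ^ 2 * R), by ring⟩
    exact hyc.dvd_of_dvd_mul_left h2
  have hun : sg R ≤ 2 * R := hu.self
  have hsgR : 0 < sg R := sg_pos hR
  by_cases hyx : y ∣ x ^ 2 + x + 1
  · -- case B1
    have hnx : ¬ x ∣ y + 1 := fun h =>
      no_mutual' hx3 (by rintro rfl; exact absurd hx (by norm_num)) (by omega) hyx h
    have hx2R : x ^ 2 ∣ sg R :=
      (Nat.Coprime.pow_left 2 ((Nat.Prime.coprime_iff_not_dvd hx).2 hnx)).dvd_of_dvd_mul_left hx2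
    obtain ⟨c', M, hc', hM, hcM, hT⟩ := paysq hx hR hRo hu hx2R
    obtain ⟨c, hc⟩ := hyx
    have hcR : c ∣ R := by
      have h1 : y * ((y + 1) * c * sg R) = y * (2 * (x ^ 2 * R)) := by
        calc y * ((y + 1) * c * sg R) = (y + 1) * ((y * c) * sg R) := by ring
          _ = y * (2 * (x ^ 2 * R)) := by rw [← hc, hs]; ring
      have h2 : (y + 1) * c * sg R = 2 * (x ^ 2 * R) := Nat.eq_of_mul_eq_mul_left hy.pos h1
      have h3 : c ∣ 2 * (x ^ 2 * R) := by rw [← h2]; exact ⟨(y + 1) * sg R, by ring⟩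
      have hcd : c ∣ x ^ 2 + x + 1 := ⟨y, by rw [hc]; ring⟩
      have h4 : c ∣ x ^ 2 * R := (Nat.Coprime.coprime_dvd_left hcd (odd_sq_add x)).dvd_of_dvd_mul_left h3
      exact ((Nat.Coprime.coprime_dvd_left hcd (coprime_sq_add x)).pow_right 2).dvd_of_dvd_mul_left h4
    have h3 := hT c 1 ⟨y, by rw [hc]; ring⟩ (by rw [one_mul]; exact hcR) one_pos
    apply arithB1 (show x ≤ y by omega) hM (c' := c') (c := c)
    · calc y * x ^ 4 * c' * M = (y * x ^ 2) * (c' * x ^ 2 * M) := by ring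
        _ ≤ (y * x ^ 2) * (2 * R) := Nat.mul_le_mul_left _ hcM
        _ = 2 * (y * (x ^ 2 * R)) := by ring
    · exact h3
    · rw [mul_comm c y, ← hc]; omega
  · -- case B2
    have hyR : y ∣ sg R :=
      ((Nat.Prime.coprime_iff_not_dvd hy).2 hyx).dvd_of_dvd_mul_left hy1
    have hxyc : Nat.Coprime x y := (Nat.coprime_primes hx hy).2 (by omega)
    by_cases hxy1 : x ∣ y + 1
    · obtain ⟨t, ht⟩ := hxy1
      by_cases hxt : x ∣ t
      · -- x ^ 2 ∣ y + 1, so y ≥ x ^ 2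
        obtain ⟨t', ht'⟩ := hxt
        apply arith6 (by omega)
        have h1 : x ^ 2 ≤ y := by
          have h2 : y + 1 = x ^ 2 * t' := by rw [ht, ht']; ring
          have h3 : t' ≠ 0 := by rintro rfl; omega
          have h4 : t' ≠ 1 := by
            rintro rfl
            rw [mul_one] at h2
            have : Odd (y + 1) := by rw [h2]; exact hxo.pow
            rcases hyo with ⟨a, ha⟩; rcases this with ⟨b, hb⟩; omega
          have h5 : 2 ≤ t' := by omega
          have h6 : x ^ 2 * 2 ≤ y + 1 := by rw [h2]; exact Nat.mul_le_mul_left _ h5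
          have : 1 ≤ x ^ 2 := Nat.one_le_pow _ _ (by omega)
          omega
        have h2 : y ≤ 2 * R := le_trans (Nat.le_of_dvd hsgR hyR) hun
        calc x ^ 6 = x ^ 2 * x ^ 2 * x ^ 2 := by ring
          _ ≤ (y * x ^ 2) * y := by
              apply Nat.mul_le_mul _ h1
              exact Nat.mul_le_mul_right _ h1
          _ ≤ (y * x ^ 2) * (2 * R) := Nat.mul_le_mul_left _ h2
          _ = 2 * (y * (x ^ 2 * R)) := by ring
      · -- x exactly divides y + 1
        have hxR1 : x ∣ sg R := by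
          rw [ht] at hx2
          have h1 : x * x ∣ x * (t * sg R) := by
            rw [← pow_two, ← mul_assoc]; exact hx2
          have h2 : x ∣ t * sg R := Nat.dvd_of_mul_dvd_mul_left hx.pos h1
          exact ((Nat.Prime.dvd_mul hx).1 h2).resolve_left hxt
        -- t = 2 * k
        obtain ⟨k, hk⟩ : ∃ k, t = 2 * k := by
          have h1 : 2 ∣ x * t := by rw [← ht]; rcases hyo with ⟨a, ha⟩; exact ⟨a + 1, by omega⟩
          have h2 : Nat.Coprime 2 x := by
            rw [Nat.Prime.coprime_iff_not_dvd Nat.prime_two]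
            rcases hxo with ⟨a, ha⟩; omega
          exact h2.dvd_of_dvd_mul_left h1
        have hk1 : 1 ≤ k := by
          rcases Nat.eq_zero_or_pos k with h | h
          · rw [hk, h] at ht; omega
          · exact h
        have hyk : y + 1 = 2 * k * x := by rw [ht, hk]; ring
        have hkx : k * x ≤ y := by
          have : 1 ≤ k * x := Nat.mul_pos hk1 hx.pos
          have h3 : 2 * k * x = 2 * (k * x) := by ring
          omega
        -- x ^ 2 + x + 1 ∣ R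
        have hdR : x ^ 2 + x + 1 ∣ R := by
          have h3 : x ^ 2 + x + 1 ∣ 2 * (y * (x ^ 2 * R)) := by
            rw [← hs]; exact ⟨(y + 1) * sg R, by ring⟩
          have h4 := (odd_sq_add x).dvd_of_dvd_mul_left h3
          have h5 : Nat.Coprime (x ^ 2 + x + 1) y :=
            ((Nat.Prime.coprime_iff_not_dvd hy).2 hyx).symm
          have h6 := h5.dvd_of_dvd_mul_left h4
          exact ((coprime_sq_add x).pow_right 2).dvd_of_dvd_mul_left h6
        obtain ⟨p, a, M, hp, ha, hM, hRM, hcop, hpy⟩ := exists_payer hy R hR hyR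
        have hpR : p ∣ R := by rw [hRM]; exact Dvd.dvd.mul_right (dvd_pow_self p ha.ne') M
        have hpx : p ≤ x := hmax p hp hpR
        have hpx' : p ≠ x := by rintro rfl; exact hxR hpR
        have hp3 : 3 ≤ p := by
          have h2' : p ≠ 2 := by
            rintro rfl
            rcases hRo with ⟨k, hk⟩
            omega
          have := hp.two_le
          omega
        have hpa : 0 < p ^ a := pow_pos hp.pos a
        by_cases hpx1 : x ∣ sg (p ^ a)
        · -- case B2a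
          obtain ⟨c, hc⟩ := hxyc.mul_dvd_of_dvd_of_dvd hpx1 hpy
          have hc0 : 1 ≤ c := by
            rcases Nat.eq_zero_or_pos c with h0 | h0
            · rw [h0, mul_zero] at hc
              have := le_sg hpa
              omega
            · exact h0
          have ha2 : a ≠ 2 := by
            rintro rfl
            rw [sg_prime_sq hp] at hc
            have h1 : x * y ≤ x * y * c := Nat.le_mul_of_pos_right _ hc0
            nlinarith
          have haodd : ¬ Odd a := by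
            rintro ⟨b, hb⟩
            -- sg (p ^ a) is even, so 4 ∣ sg N
            have h1 : 2 ∣ sg (p ^ a) := by
              rw [sg, ArithmeticFunction.sigma_one_apply_prime_pow hp, hb]
              have hpo : Odd p := hp.odd_of_ne_two (by omega)
              have : ∀ n, 2 ∣ ∑ i ∈ Finset.range (2 * n), p ^ i := by
                intro n
                induction n with
                | zero => simp
                | succ n ih =>
                  rw [show 2 * (n + 1) = 2 * n + 1 + 1 by ring, Finset.sum_range_succ,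
                    Finset.sum_range_succ, add_assoc]
                  apply dvd_add ih
                  rw [pow_succ]
                  have : p ^ (2 * n) + p ^ (2 * n) * p = p ^ (2 * n) * (p + 1) := by ring
                  rw [this]
                  apply Dvd.dvd.mul_left
                  rcases hpo with ⟨q, hq⟩
                  exact ⟨q + 1, by omega⟩
              have h2 := this (b + 1)
              rwa [show 2 * (b + 1) = 2 * b + 1 + 1 by ring] at h2
            obtain ⟨s, hs1⟩ := h1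
            have h2 : sg R = sg (p ^ a) * sg M := by rw [hRM, sg_mul hcop]
            have h3 : 2 * (2 * (k * x * ((x ^ 2 + x + 1) * (s * sg M)))) =
                2 * (y * (x ^ 2 * R)) := by
              rw [← hs, h2, hyk, hs1]; ring
            have h4 : 2 * (k * x * ((x ^ 2 + x + 1) * (s * sg M))) = y * (x ^ 2 * R) :=
              Nat.eq_of_mul_eq_mul_left (by norm_num) h3
            rw [← h4] at hNo
            rcases hNo with ⟨q, hq⟩
            omega
          have ha4 : 4 ≤ a := by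
            rcases Nat.even_or_odd a with ⟨b, hb⟩ | h
            · omega
            · exact absurd h haodd
          have h2p : x * y * c ≤ 2 * p ^ a := by
            rw [← hc]; exact hu _ _ hRM hcop
          have hg := gcd_le_B hp hp3 hc0 hk1 hyk hc
          have hT2 : x ^ 2 + x + 1 ∣ M * Nat.gcd (x ^ 2 + x + 1) (p ^ a) := by
            have h6 : x ^ 2 + x + 1 ∣ Nat.gcd (M * (x ^ 2 + x + 1)) (M * p ^ a) := by
              apply Nat.dvd_gcd (Dvd.intro_left _ rfl)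
              have : M * p ^ a = R := by rw [hRM]; ring
              rw [this]; exact hdR
            rwa [Nat.gcd_mul_left] at h6
          have hgpos : 0 < Nat.gcd (x ^ 2 + x + 1) (p ^ a) := Nat.gcd_pos_of_pos_right _ hpa
          have h7 := Nat.le_of_dvd (Nat.mul_pos hM hgpos) hT2
          apply arithB2a (c := c) (p := p) (k := k) (M := M) (by omega) (show x ≤ y by omega) hM hc0
          · calc c * x ^ 3 * y ^ 2 * M = (y * x ^ 2 * M) * (x * y * c) := by ring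
              _ ≤ (y * x ^ 2 * M) * (2 * p ^ a) := Nat.mul_le_mul_left _ h2p
              _ = 2 * (y * (x ^ 2 * R)) := by rw [hRM]; ring
          · calc x ^ 2 ≤ x ^ 2 + x + 1 := by omega
              _ ≤ M * Nat.gcd (x ^ 2 + x + 1) (p ^ a) := h7
              _ ≤ M * (7 * k ^ 2 * c ^ 2 * p ^ 2) := Nat.mul_le_mul_left _ hg
              _ = 7 * k ^ 2 * c ^ 2 * p ^ 2 * M := by ring
          · calc p ^ 4 ≤ p ^ a := Nat.pow_le_pow_right hp.pos ha4
              _ ≤ sg (p ^ a) := le_sg hpa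
              _ = x * y * c := hc
          · exact hkx
        · -- case B2b
          obtain ⟨c, hc⟩ := hpy
          have hc0 : 1 ≤ c := by
            rcases Nat.eq_zero_or_pos c with h0 | h0
            · rw [h0, mul_zero] at hc
              have := le_sg hpa
              omega
            · exact h0
          have hxM : x ∣ sg M := by
            rw [hRM, sg_mul hcop] at hxR1
            exact ((Nat.Prime.dvd_mul hx).1 hxR1).resolve_left hpx1
          obtain ⟨p', a', M', hp', ha', hM', hMM, hcop', hpr'⟩ := exists_payer hx M hM hxM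
          have hp3' : 3 ≤ p' := by
            have h2' : p' ≠ 2 := by
              rintro rfl
              have : 2 ∣ R := by
                rw [hRM, hMM]
                exact Dvd.dvd.mul_left (Dvd.dvd.mul_right (dvd_pow_self 2 ha'.ne') M') _
              rcases hRo with ⟨k, hk⟩
              omega
            have := hp'.two_le
            omega
          have hpa' : 0 < p' ^ a' := pow_pos hp'.pos a'
          obtain ⟨c', hc'⟩ := hpr'
          have hc0' : 1 ≤ c' := by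
            rcases Nat.eq_zero_or_pos c' with h0 | h0
            · rw [h0, mul_zero] at hc'
              have := le_sg hpa'
              omega
            · exact h0
          have hcc : Nat.Coprime (p ^ a) (p' ^ a') := by
            rw [hMM] at hcop
            exact Nat.Coprime.coprime_mul_right_right hcop
          have hcM : Nat.Coprime (p ^ a) M' := by
            rw [hMM] at hcop
            exact Nat.Coprime.coprime_mul_left_right hcop
          have h3 : sg (p ^ a * p' ^ a') ≤ 2 * (p ^ a * p' ^ a') := by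
            apply hu _ M'
            · rw [hRM, hMM]; ring
            · exact Nat.Coprime.mul_left hcM hcop'
          rw [sg_mul hcc, hc, hc'] at h3
          have hg' : Nat.gcd (x ^ 2 + x + 1) (p' ^ a') ≤ 8 * c' ^ 3 :=
            gcd_le (r := x) (j := 1) hp' hp3' hc0' (Or.inl rfl) (a := a') (by rw [hc']; ring)
          have hg : Nat.gcd (x ^ 2 + x + 1) (p ^ a) ≤ c * y := by
            calc Nat.gcd (x ^ 2 + x + 1) (p ^ a) ≤ p ^ a :=
                  Nat.le_of_dvd hpa (Nat.gcd_dvd_right _ _)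
              _ ≤ sg (p ^ a) := le_sg hpa
              _ = c * y := by rw [hc]; ring
          have hT2 : x ^ 2 + x + 1 ∣ M' * Nat.gcd (x ^ 2 + x + 1) (p ^ a * p' ^ a') := by
            have h6 : x ^ 2 + x + 1 ∣
                Nat.gcd (M' * (x ^ 2 + x + 1)) (M' * (p ^ a * p' ^ a')) := by
              apply Nat.dvd_gcd (Dvd.intro_left _ rfl)
              have : M' * (p ^ a * p' ^ a') = R := by rw [hRM, hMM]; ring
              rw [this]; exact hdR
            rwa [Nat.gcd_mul_left] at h6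
          have hgpos : 0 < Nat.gcd (x ^ 2 + x + 1) (p ^ a * p' ^ a') :=
            Nat.gcd_pos_of_pos_right _ (by positivity)
          have h7 := Nat.le_of_dvd (Nat.mul_pos hM' hgpos) hT2
          have h8 : Nat.gcd (x ^ 2 + x + 1) (p ^ a * p' ^ a') ≤
              Nat.gcd (x ^ 2 + x + 1) (p ^ a) * Nat.gcd (x ^ 2 + x + 1) (p' ^ a') :=
            Nat.le_of_dvd (Nat.mul_pos (Nat.gcd_pos_of_pos_right _ hpa)
              (Nat.gcd_pos_of_pos_right _ hpa')) (Nat.gcd_mul_right_dvd_mul_gcd _ _ _)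
          apply arithB2b (c := c) (c' := c') (M := M') (show x ≤ y by omega) hM' hc0
          · calc c * c' * x ^ 3 * y ^ 2 * M' = (y * x ^ 2 * M') * (y * c * (x * c')) := by ring
              _ ≤ (y * x ^ 2 * M') * (2 * (p ^ a * p' ^ a')) := Nat.mul_le_mul_left _ h3
              _ = 2 * (y * (x ^ 2 * R)) := by rw [hRM, hMM]; ring
          · calc x ^ 2 ≤ x ^ 2 + x + 1 := by omega
              _ ≤ M' * Nat.gcd (x ^ 2 + x + 1) (p ^ a * p' ^ a') := h7
              _ ≤ M' * (Nat.gcd (x ^ 2 + x + 1) (p ^ a) * Nat.gcd (x ^ 2 + x + 1) (p' ^ a')) :=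
                  Nat.mul_le_mul_left _ h8
              _ ≤ M' * ((c * y) * (8 * c' ^ 3)) := Nat.mul_le_mul_left _ (Nat.mul_le_mul hg hg')
              _ = (c * y) * (8 * c' ^ 3) * M' := by ring
    · -- x does not divide y + 1
      have hx2R : x ^ 2 ∣ sg R :=
        (Nat.Coprime.pow_left 2 ((Nat.Prime.coprime_iff_not_dvd hx).2 hxy1)).dvd_of_dvd_mul_left hx2
      have h1 : x ^ 2 * y ∣ sg R := (hxyc.pow_left 2).mul_dvd_of_dvd_of_dvd hx2R hyR
      have h2 : x ^ 2 * y ≤ 2 * R := le_trans (Nat.le_of_dvd hsgR h1) hun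
      apply arith6 (by omega)
      calc x ^ 6 = (x * x ^ 2) * (x ^ 2 * x) := by ring
        _ ≤ (y * x ^ 2) * (x ^ 2 * y) := by
            apply Nat.mul_le_mul
            · exact Nat.mul_le_mul_right _ (by omega)
            · exact Nat.mul_le_mul_left _ (by omega)
        _ ≤ (y * x ^ 2) * (2 * R) := Nat.mul_le_mul_left _ h2
        _ = 2 * (y * (x ^ 2 * R)) := by ring

theorem caseD {x y R : ℕ} (hx : x.Prime) (hy : y.Prime) (hxy : x + 2 ≤ y)
    (hR : 0 < R) (hu : Unit2 R)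
    (hs : (y ^ 2 + y + 1) * ((x ^ 2 + x + 1) * sg R) = 2 * (y ^ 2 * (x ^ 2 * R))) :
    x ^ 16 ≤ (8 * (y ^ 2 * (x ^ 2 * R))) ^ 3 := by
  have hxyc : Nat.Coprime x y := (Nat.coprime_primes hx hy).2 (by omega)
  have hun : sg R ≤ 2 * R := hu.self
  have hsgR : 0 < sg R := sg_pos hR
  have hx1 : 1 ≤ x := hx.pos
  have hy2 : y ^ 2 ∣ (x ^ 2 + x + 1) * sg R := by
    have h2 : y ^ 2 ∣ (y ^ 2 + y + 1) * ((x ^ 2 + x + 1) * sg R) := by
      rw [hs]; exact ⟨2 * (x ^ 2 * R), by ring⟩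
    exact ((coprime_sq_add y).symm.pow_left 2).dvd_of_dvd_mul_left h2
  have hx2 : x ^ 2 ∣ (y ^ 2 + y + 1) * sg R := by
    have h2 : x ^ 2 ∣ (x ^ 2 + x + 1) * ((y ^ 2 + y + 1) * sg R) := by
      refine ⟨2 * (y ^ 2 * R), ?_⟩
      calc (x ^ 2 + x + 1) * ((y ^ 2 + y + 1) * sg R)
          = (y ^ 2 + y + 1) * ((x ^ 2 + x + 1) * sg R) := by ring
        _ = x ^ 2 * (2 * (y ^ 2 * R)) := by rw [hs]; ring
    exact ((coprime_sq_add x).symm.pow_left 2).dvd_of_dvd_mul_left h2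
  apply arith6 hx1
  by_cases hyx : y ∣ x ^ 2 + x + 1
  · have hyR : y ∣ sg R := by
      obtain ⟨c, hc⟩ := hyx
      have hcx := cof_lt (x := x) (y := y) (c := c) hx.two_le (by omega) (by rw [hc]; ring)
      have hc0 : 0 < c := by
        rcases Nat.eq_zero_or_pos c with h0 | h0
        · rw [h0, mul_zero] at hc; omega
        · exact h0
      have hyc : ¬ y ∣ c := fun h => by
        have := Nat.le_of_dvd hc0 h
        omega
      rw [hc] at hy2
      have h1 : y * y ∣ y * (c * sg R) := by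
        rw [← pow_two, ← mul_assoc]; exact hy2
      have h2 : y ∣ c * sg R := Nat.dvd_of_mul_dvd_mul_left hy.pos h1
      exact ((Nat.Prime.dvd_mul hy).1 h2).resolve_left hyc
    by_cases hxy1 : x ∣ y ^ 2 + y + 1
    · obtain ⟨t, ht⟩ := hxy1
      have hxt : ¬ x ∣ t := by
        rintro ⟨t', rfl⟩
        exact no_mutual hx.two_le (by omega) hyx ⟨t', by rw [ht]; ring⟩
      have hxR : x ∣ sg R := by
        rw [ht] at hx2
        have h1 : x * x ∣ x * (t * sg R) := by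
          rw [← pow_two, ← mul_assoc]; exact hx2
        have h2 : x ∣ t * sg R := Nat.dvd_of_mul_dvd_mul_left hx.pos h1
        exact ((Nat.Prime.dvd_mul hx).1 h2).resolve_left hxt
      have h1 : x * y ∣ sg R := hxyc.mul_dvd_of_dvd_of_dvd hxR hyR
      have h2 : x * y ≤ 2 * R := le_trans (Nat.le_of_dvd hsgR h1) hun
      calc x ^ 6 = (x ^ 2 * x ^ 2) * (x * x) := by ring
        _ ≤ (y ^ 2 * x ^ 2) * (x * y) := by
            apply Nat.mul_le_mul
            · exact Nat.mul_le_mul_right _ (Nat.pow_le_pow_left (by omega) 2)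
            · exact Nat.mul_le_mul_left _ (by omega)
        _ ≤ (y ^ 2 * x ^ 2) * (2 * R) := Nat.mul_le_mul_left _ h2
        _ = 2 * (y ^ 2 * (x ^ 2 * R)) := by ring
    · have hx2R : x ^ 2 ∣ sg R :=
        (Nat.Coprime.pow_left 2 ((Nat.Prime.coprime_iff_not_dvd hx).2 hxy1)).dvd_of_dvd_mul_left hx2
      have h2 : x ^ 2 ≤ 2 * R := le_trans (Nat.le_of_dvd hsgR hx2R) hun
      calc x ^ 6 = (x ^ 2 * x ^ 2) * x ^ 2 := by ring
        _ ≤ (y ^ 2 * x ^ 2) * x ^ 2 := by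
            apply Nat.mul_le_mul_right
            exact Nat.mul_le_mul_right _ (Nat.pow_le_pow_left (by omega) 2)
        _ ≤ (y ^ 2 * x ^ 2) * (2 * R) := Nat.mul_le_mul_left _ h2
        _ = 2 * (y ^ 2 * (x ^ 2 * R)) := by ring
  · have hyR : y ^ 2 ∣ sg R :=
      (Nat.Coprime.pow_left 2 ((Nat.Prime.coprime_iff_not_dvd hy).2 hyx)).dvd_of_dvd_mul_left hy2
    have h2 : y ^ 2 ≤ 2 * R := le_trans (Nat.le_of_dvd hsgR hyR) hun
    calc x ^ 6 = (x ^ 2 * x ^ 2) * x ^ 2 := by ring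
      _ ≤ (y ^ 2 * x ^ 2) * y ^ 2 := by
          apply Nat.mul_le_mul
          · exact Nat.mul_le_mul_right _ (Nat.pow_le_pow_left (by omega) 2)
          · exact Nat.pow_le_pow_left (by omega) 2
      _ ≤ (y ^ 2 * x ^ 2) * (2 * R) := Nat.mul_le_mul_left _ h2
      _ = 2 * (y ^ 2 * (x ^ 2 * R)) := by ring

/-- A prime power `r ^ a` exactly dividing `N` satisfies `(r ^ a) ^ 2 ≤ 2 N`. -/
theorem pow_sq_le {N r a D : ℕ} (hr : r.Prime) (hN : 0 < N) (hs : sg N = 2 * N)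
    (hND : N = r ^ a * D) (hrD : ¬ r ∣ D) : (r ^ a) ^ 2 ≤ 2 * N := by
  have hcop : Nat.Coprime (r ^ a) D := Nat.Coprime.pow_left a ((Nat.Prime.coprime_iff_not_dvd hr).2 hrD)
  have hD : 0 < D := by
    rcases Nat.eq_zero_or_pos D with h | h
    · rw [h, mul_zero] at hND; omega
    · exact h
  have hu : Unit2 D := by
    have := Unit2.of_perfect hN hs
    rw [hND] at this
    exact this.right hcop
  have h1 : r ^ a ∣ sg (r ^ a) * sg D := by
    rw [← sg_mul hcop, ← hND, hs, hND]; exact ⟨2 * D, by ring⟩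
  have h2 : r ^ a ∣ sg D := ((coprime_sg_pow hr a).pow_left a).dvd_of_dvd_mul_left h1
  have h3 : r ^ a ≤ 2 * D := le_trans (Nat.le_of_dvd (sg_pos hD) h2) hu.self
  calc (r ^ a) ^ 2 = r ^ a * r ^ a := by ring
    _ ≤ r ^ a * (2 * D) := Nat.mul_le_mul_left _ h3
    _ = 2 * N := by rw [hND]; ring

theorem main_bound {N x y : ℕ} (hodd : Odd N) (hs : sg N = 2 * N)
    (hx : x.Prime) (hy : y.Prime) (hxN : x ∣ N) (hyN : y ∣ N) (hxy : x < y)
    (hmax : ∀ p, p.Prime → p ∣ N → p ≠ y → p ≤ x) : x ^ 16 ≤ (8 * N) ^ 3 := by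
  have hN : 0 < N := hodd.pos
  have hoddp : ∀ p, p ∣ N → Odd p := fun p hp => Odd.of_dvd_nat hodd hp
  have hxo := hoddp x hxN
  have hyo := hoddp y hyN
  have hx3 : 3 ≤ x := by
    have := hx.two_le
    rcases hxo with ⟨k, hk⟩; omega
  have hxy2 : x + 2 ≤ y := by
    rcases hxo with ⟨k, hk⟩; rcases hyo with ⟨l, hl⟩; omega
  obtain ⟨b, N1, hyN1, hNb⟩ := Nat.exists_eq_pow_mul_and_not_dvd hN.ne' y hy.one_lt.ne'
  have hN1 : N1 ≠ 0 := by rintro rfl; exact hyN1 (dvd_zero y)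
  obtain ⟨a, R, hxR, hN1a⟩ := Nat.exists_eq_pow_mul_and_not_dvd hN1 x hx.one_lt.ne'
  have hR : 0 < R := by
    rcases Nat.eq_zero_or_pos R with h | h
    · rw [h] at hxR; exact absurd (dvd_zero x) hxR
    · exact h
  have hN' : N = y ^ b * (x ^ a * R) := by rw [hNb, hN1a]
  have hyR : ¬ y ∣ R := fun h => hyN1 (by rw [hN1a]; exact Dvd.dvd.mul_left h _)
  have hxyc : Nat.Coprime x y := (Nat.coprime_primes hx hy).2 (by omega)
  have hb : 0 < b := by
    rcases Nat.eq_zero_or_pos b with h | h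
    · exfalso
      rw [h, pow_zero, one_mul] at hNb
      exact hyN1 (hNb ▸ hyN)
    · exact h
  have hxN1 : x ∣ N1 := by
    rw [hNb] at hxN
    exact (hxyc.pow_right b).dvd_of_dvd_mul_left hxN
  have ha : 0 < a := by
    rcases Nat.eq_zero_or_pos a with h | h
    · exfalso
      rw [h, pow_zero, one_mul] at hN1a
      exact hxR (hN1a ▸ hxN1)
    · exact h
  have hc1 : Nat.Coprime (y ^ b) (x ^ a * R) := by
    rw [← hN1a]
    exact Nat.Coprime.pow_left b ((Nat.Prime.coprime_iff_not_dvd hy).2 hyN1)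
  have hc2 : Nat.Coprime (x ^ a) R :=
    Nat.Coprime.pow_left a ((Nat.Prime.coprime_iff_not_dvd hx).2 hxR)
  -- large exponents
  rcases Nat.lt_or_ge b 3 with hb3 | hb3
  swap
  · have h1 := pow_sq_le hy hN hs hNb hyN1
    apply arith6 (by omega)
    calc x ^ 6 ≤ y ^ 6 := Nat.pow_le_pow_left (by omega) 6
      _ ≤ y ^ (2 * b) := Nat.pow_le_pow_right hy.pos (by omega)
      _ = (y ^ b) ^ 2 := by ring
      _ ≤ 2 * N := h1
  rcases Nat.lt_or_ge a 3 with ha3 | ha3
  swap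
  · have hxD : ¬ x ∣ y ^ b * R := by
      intro h
      rcases (Nat.Prime.dvd_mul hx).1 h with h1 | h1
      · have h2 := hx.dvd_of_dvd_pow h1
        have := (Nat.prime_dvd_prime_iff_eq hx hy).1 h2
        omega
      · exact hxR h1
    have h1 := pow_sq_le hx hN hs (D := y ^ b * R) (a := a) (by rw [hN']; ring) hxD
    apply arith6 (by omega)
    calc x ^ 6 ≤ x ^ (2 * a) := Nat.pow_le_pow_right hx.pos (by omega)
      _ = (x ^ a) ^ 2 := by ring
      _ ≤ 2 * N := h1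
  have hRo : Odd R := hoddp R (by rw [hN']; exact ⟨y ^ b * x ^ a, by ring⟩)
  have huN : Unit2 (y ^ b * (x ^ a * R)) := hN' ▸ Unit2.of_perfect hN hs
  have hu : Unit2 R := (huN.right hc1).right hc2
  have hs' : sg (y ^ b) * (sg (x ^ a) * sg R) = 2 * (y ^ b * (x ^ a * R)) := by
    rw [← sg_mul hc2, ← sg_mul hc1, ← hN', hs]
  have hmaxR : ∀ p, p.Prime → p ∣ R → p ≤ x := by
    intro p hp hpR
    apply hmax p hp (by rw [hN']; exact Dvd.dvd.mul_left (Dvd.dvd.mul_left hpR _) _)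
    rintro rfl
    exact hyR hpR
  rw [hN']
  have hNodd : Odd (y ^ b * (x ^ a * R)) := hN' ▸ hodd
  rcases (show b = 1 ∨ b = 2 by omega) with rfl | rfl
  · rcases (show a = 1 ∨ a = 2 by omega) with rfl | rfl
    · -- both exponents one: `4 ∣ σ(N)`
      exfalso
      rw [sg_prime hx, sg_prime hy] at hs'
      rcases hxo with ⟨k, hk⟩
      rcases hyo with ⟨l, hl⟩
      have h3 : 2 * (2 * ((l + 1) * ((k + 1) * sg R))) = 2 * (y ^ 1 * (x ^ 1 * R)) := by
        rw [← hs']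
        have e1 : y + 1 = 2 * (l + 1) := by omega
        have e2 : x + 1 = 2 * (k + 1) := by omega
        rw [e1, e2]; ring
      have h4 : 2 * ((l + 1) * ((k + 1) * sg R)) = y ^ 1 * (x ^ 1 * R) :=
        Nat.eq_of_mul_eq_mul_left (by norm_num) h3
      rw [← h4] at hNodd
      rcases hNodd with ⟨q, hq⟩
      omega
    · rw [sg_prime hy, sg_prime_sq hx] at hs'
      rw [pow_one] at hs' hNodd ⊢
      exact caseB hx hy hx3 hxy2 hR hRo hu hxR hmaxR hNodd hs'
  · rcases (show a = 1 ∨ a = 2 by omega) with rfl | rfl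
    · rw [sg_prime hx, sg_prime_sq hy, pow_one] at hs'
      rw [pow_one]
      exact caseC hx hy hxy2 hR hRo hu hs'
    · rw [sg_prime_sq hx, sg_prime_sq hy] at hs'
      exact caseD hx hy hxy2 hR hu hs'

/-- If `N` is an odd perfect number and `p < q` are primes dividing `N`, then
`p ^ 16 ≤ (8 N) ^ 3`; that is, every prime factor of `N` other than the largest one, in
particular the second largest, is at most `(8 N) ^ (3 / 16)`. -/
theorem result (N : ℕ) (hodd : Odd N) (hperf : Nat.Perfect N) (p q : ℕ) (hp : p.Prime)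
    (hq : q.Prime) (hpN : p ∣ N) (hqN : q ∣ N) (hpq : p < q) : p ^ 16 ≤ (8 * N) ^ 3 := by
  have hN : 0 < N := hodd.pos
  have hs : sg N = 2 * N := by
    rw [sg, ArithmeticFunction.sigma_one_apply]
    exact (Nat.perfect_iff_sum_divisors_eq_two_mul hN).1 hperf
  -- the largest prime factor
  have hmem : ∀ r, r ∈ N.primeFactors ↔ r.Prime ∧ r ∣ N := by
    intro r
    rw [Nat.mem_primeFactors]
    exact ⟨fun h => ⟨h.1, h.2.1⟩, fun h => ⟨h.1, h.2, hN.ne'⟩⟩
  have hne : N.primeFactors.Nonempty := ⟨q, (hmem q).2 ⟨hq, hqN⟩⟩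
  obtain ⟨y, hymem, hymax⟩ := N.primeFactors.exists_max_image id hne
  have hy := (hmem y).1 hymem
  have hqy : q ≤ y := hymax q ((hmem q).2 ⟨hq, hqN⟩)
  have hpy : p ≠ y := by omega
  have hne2 : (N.primeFactors.erase y).Nonempty :=
    ⟨p, Finset.mem_erase.2 ⟨hpy, (hmem p).2 ⟨hp, hpN⟩⟩⟩
  obtain ⟨x, hxmem, hxmax⟩ := (N.primeFactors.erase y).exists_max_image id hne2
  have hx := (hmem x).1 (Finset.mem_of_mem_erase hxmem)
  have hxy : x < y := lt_of_le_of_ne (hymax x (Finset.mem_of_mem_erase hxmem))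
    (Finset.ne_of_mem_erase hxmem)
  have hpx : p ≤ x := hxmax p (Finset.mem_erase.2 ⟨hpy, (hmem p).2 ⟨hp, hpN⟩⟩)
  calc p ^ 16 ≤ x ^ 16 := Nat.pow_le_pow_left hpx 16
    _ ≤ (8 * N) ^ 3 := main_bound hodd hs hx.1 hy.1 hx.2 hy.2 hxy (by
        intro r hr hrN hry
        exact hxmax r (Finset.mem_erase.2 ⟨hry, (hmem r).2 ⟨hr, hrN⟩⟩))

end Pool.Agent.Results.MP_f02ea4_nt.SecondLargestPrime
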